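import Pool.Agent.Helper93.OR.Fin0
import Pool.Agent.Helper8.OR.FI

/-!
# OR, block FI1: all heights and signs, windows and the upper bound off one set
-/

set_option autoImplicit false
open MeasureTheory Set Filter Topology
open Pool.Agent.Helper93.UG (zc sp)
open Pool.Agent.Helper57.NS (cnt)
open Pool.Agent.Helper93.OR

namespace Pool.Agent.Helper90.OR

/-- the statement of HP -/
def StHp (δ : ℝ) : Prop := ∃ c C T₀ : ℝ, 0 < c ∧ 1 ≤ C ∧
    ∀ T L : ℝ, T₀ ≤ T → C ≤ L → L ≤ Real.log T ^ (1 - δ) → ∀ σ θ a b : ℝ, (σ = 1 ∨ σ = -1) → 0 ≤ θ → θ ≤ 1 - δ → 0 ≤ a → b ≤ L →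
      a + L / 3 ≤ b →
    ∃ E : Set ℝ, volume E ≤ ENNReal.ofReal (C * L ^ (-c) * T) ∧ ∀ t ∈ Icc T (2 * T), t ∉ E →
      ENNReal.ofReal (L ^ (1 - θ ^ 2 - δ)) ≤
        volume {x : ℝ | x ∈ Icc a b ∧ θ / Real.pi * Real.log L ≤ σ * (cnt T t (Icc 0 x) - x)}

/-- the statement of UB -/
def StUb (δ : ℝ) : Prop := ∃ C T₀ : ℝ, 1 ≤ C ∧ ∀ T L : ℝ, T₀ ≤ T → C ≤ L → L ≤ Real.log T ^ (1 - δ) →
    ∃ E : Set ℝ, volume E ≤ ENNReal.ofReal (C * L ^ (-1 : ℝ) * T) ∧ ∀ t ∈ Icc T (2 * T), t ∉ E → ∀ x ∈ Icc 0 L,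
      |cnt T t (Icc 0 x) - x| ≤ C * Real.log L

/-- the sign -/
noncomputable def sg (s : Bool) : ℝ := if s then 1 else -1

/-- the left end -/
noncomputable def lo (j : Fin 3) (L : ℝ) : ℝ := if j = 2 then L / 2 else 0

/-- the right end -/
noncomputable def hi (j : Fin 3) (L : ℝ) : ℝ := if j = 1 then L / 2 else L

theorem sg_or (s : Bool) : sg s = 1 ∨ sg s = -1 := by
  unfold sg
  cases s <;> simp

theorem lo_hi {L : ℝ} (hL : 0 ≤ L) (j : Fin 3) : 0 ≤ lo j L ∧ hi j L ≤ L ∧ lo j L + L / 3 ≤ hi j L := by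
  unfold lo hi
  fin_cases j
  · simp
    linarith
  · simp
    constructor <;> linarith
  · simp
    constructor <;> linarith

/-- FI1 over HP (at `δ/2`) and UB -/
theorem fi_main_of {δ : ℝ} (hδ : 0 < δ) (hδ1 : δ ≤ 1) (hhp : StHp (δ / 2)) (hub : StUb δ) : ∃ c C T₀ : ℝ, 0 < c ∧ 1 ≤ C ∧
    ∀ T L : ℝ, T₀ ≤ T → C ≤ L → L ≤ Real.log T ^ (1 - δ) →
      volume {t : ℝ | T ≤ t ∧ t ≤ 2 * T ∧ ¬ Fin0 δ C T L t} ≤ ENNReal.ofReal (C * L ^ (-c) * T) := by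
  obtain ⟨c, C, T₁, hc, hC, hp⟩ := hhp
  obtain ⟨Cu, T₂, hCu, hu⟩ := hub
  set K : ℕ := ⌈8 / δ⌉₊ with hK
  have hKδ : 1 ≤ (K : ℝ) * (δ / 8) := by
    have h1 : 8 / δ ≤ K := Nat.le_ceil _
    rw [div_le_iff₀ hδ] at h1
    linarith
  set C₀ : ℝ := (6 * (K + 1) : ℕ) * C + 2 * Cu with hC₀
  have hn0 : (0:ℝ) ≤ ((6 * (K + 1) : ℕ) : ℝ) := Nat.cast_nonneg _
  have hn1 : (1:ℝ) ≤ ((6 * (K + 1) : ℕ) : ℝ) := by
    have : 1 ≤ 6 * (K + 1) := by omega
    exact_mod_cast this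
  have hCC : C ≤ C₀ := by
    have : 1 * C ≤ ((6 * (K + 1) : ℕ) : ℝ) * C := mul_le_mul_of_nonneg_right hn1 (by linarith)
    rw [hC₀]
    linarith
  have hCuC : Cu ≤ C₀ := by
    have : 0 ≤ ((6 * (K + 1) : ℕ) : ℝ) * C := mul_nonneg hn0 (by linarith)
    rw [hC₀]
    linarith
  have hCuC2 : Cu ≤ C₀ / 2 := by
    have : 0 ≤ ((6 * (K + 1) : ℕ) : ℝ) * C := mul_nonneg hn0 (by linarith)
    rw [hC₀]
    linarith
  refine ⟨min c 1, C₀, max (max T₁ T₂) 3, lt_min hc one_pos, by linarith, fun T L hT hL hLT => ?_⟩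
  have hT1 : T₁ ≤ T := le_trans (le_trans (le_max_left _ _) (le_max_left _ _)) hT
  have hT2 : T₂ ≤ T := le_trans (le_trans (le_max_right _ _) (le_max_left _ _)) hT
  have hT3 : 3 ≤ T := le_trans (le_max_right _ _) hT
  have hT0 : 0 ≤ T := by linarith
  have hlog : 1 ≤ Real.log T := by
    rw [Real.le_log_iff_exp_le (by linarith)]
    have := Real.exp_one_lt_d9
    linarith
  have hL1 : 1 ≤ L := by linarith
  have hL0 : 0 ≤ L := by linarith
  have hLT2 : L ≤ Real.log T ^ (1 - δ / 2) :=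
    hLT.trans (Real.rpow_le_rpow_of_exponent_le hlog (by linarith))
  obtain ⟨Eu, hEu, hEu2⟩ := hu T L hT2 (by linarith) hLT
  have hch : ∀ i : ℕ × Bool × Fin 3, ∃ E : Set ℝ, volume E ≤ ENNReal.ofReal (C * L ^ (-c) * T) ∧ ∀ t ∈ Icc T (2 * T), t ∉ E →
      ENNReal.ofReal (L ^ (1 - (min ((i.1 : ℝ) * (δ / 8)) (1 - δ / 2)) ^ 2 - δ / 2)) ≤
        volume {x : ℝ | x ∈ Icc (lo i.2.2 L) (hi i.2.2 L) ∧
          (min ((i.1 : ℝ) * (δ / 8)) (1 - δ / 2)) / Real.pi * Real.log L ≤ sg i.2.1 * (cnt T t (Icc 0 x) - x)} := by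
    intro i
    obtain ⟨h1, h2, h3⟩ := lo_hi hL0 i.2.2
    exact hp T L hT1 (by linarith) hLT2 (sg i.2.1) _ _ _ (sg_or _)
      (le_min (by positivity) (by linarith)) (min_le_right _ _) h1 h2 h3
  choose E hE1 hE2 using hch
  let I : Finset (ℕ × Bool × Fin 3) := Finset.range (K + 1) ×ˢ (Finset.univ ×ˢ Finset.univ)
  have hI : I.card = 6 * (K + 1) := by
    simp only [I, Finset.card_product, Finset.card_range, Finset.card_univ, Fintype.card_bool, Fintype.card_fin]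
    ring
  have hmem : ∀ k s j, k ≤ K → (k, s, j) ∈ I := by
    intro k s j hk
    simp only [I, Finset.mem_product, Finset.mem_range, Finset.mem_univ, and_true]
    omega
  have hsub : {t : ℝ | T ≤ t ∧ t ≤ 2 * T ∧ ¬ Fin0 δ C₀ T L t} ⊆ Eu ∪ ⋃ i ∈ I, E i := by
    rintro t ⟨ht1, ht2, hbad⟩
    by_contra hno
    rw [Set.mem_union, not_or] at hno
    obtain ⟨hnu, hnE⟩ := hno
    have hnE' : ∀ k s j, k ≤ K → t ∉ E (k, s, j) := by
      intro k s j hk hin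
      exact hnE (Set.mem_biUnion (hmem k s j hk) hin)
    have htI : t ∈ Icc T (2 * T) := ⟨ht1, ht2⟩
    apply hbad
    have hsig : ∀ σ : ℝ, (σ = 1 ∨ σ = -1) → ∃ s, sg s = σ := by
      rintro σ (rfl | rfl)
      · exact ⟨true, by simp [sg]⟩
      · exact ⟨false, by simp [sg]⟩
    have hKmin : min ((K : ℝ) * (δ / 8)) (1 - δ / 2) = 1 - δ / 2 := min_eq_right (by linarith)
    have hfin := Pool.Agent.Helper8.OR.fin_of_grid (T := T) (t := t) (C := C₀ / 2) (L := L) hT3 hL1 hδ hδ1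
      (by
        intro k hk σ hσ
        obtain ⟨s, rfl⟩ := hsig σ hσ
        have hkK : k ≤ K := by
          have h1 : (k : ℝ) ≤ 8 / δ := by
            rw [le_div_iff₀ hδ]
            linarith
          have h2 : (k : ℝ) ≤ K := h1.trans (Nat.le_ceil _)
          exact_mod_cast h2
        have h3 := hE2 (k, s, 0) t htI (hnE' k s 0 hkK)
        simp only [min_eq_left hk] at h3
        simpa [lo, hi] using h3)
      (by
        intro σ hσ
        obtain ⟨s, rfl⟩ := hsig σ hσ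
        have h3 := hE2 (K, s, 1) t htI (hnE' K s 1 le_rfl)
        simp only [hKmin] at h3
        simpa [lo, hi] using h3)
      (by
        intro σ hσ
        obtain ⟨s, rfl⟩ := hsig σ hσ
        have h3 := hE2 (K, s, 2) t htI (hnE' K s 2 le_rfl)
        simp only [hKmin] at h3
        simpa [lo, hi] using h3)
      (by
        intro x hx
        refine (hEu2 t htI hnu x hx).trans ?_
        exact mul_le_mul_of_nonneg_right hCuC2 (Real.log_nonneg hL1))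
    have e2 : 2 * (C₀ / 2) = C₀ := by ring
    rw [e2] at hfin
    exact ⟨hfin.1, hfin.2.1, hfin.2.2⟩
  have hLc : L ^ (-c) ≤ L ^ (-(min c 1)) := Real.rpow_le_rpow_of_exponent_le hL1 (by linarith [min_le_left c 1])
  have hL1' : L ^ (-1 : ℝ) ≤ L ^ (-(min c 1)) := Real.rpow_le_rpow_of_exponent_le hL1 (by linarith [min_le_right c 1])
  have hp0 : 0 ≤ L ^ (-c) := Real.rpow_nonneg hL0 _
  have hp1 : 0 ≤ L ^ (-1 : ℝ) := Real.rpow_nonneg hL0 _
  have hp2 : 0 ≤ L ^ (-(min c 1)) := Real.rpow_nonneg hL0 _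
  have hn2 : 0 ≤ C * L ^ (-c) * T := by positivity
  have hn3 : 0 ≤ Cu * L ^ (-1 : ℝ) * T := by positivity
  calc volume {t : ℝ | T ≤ t ∧ t ≤ 2 * T ∧ ¬ Fin0 δ C₀ T L t} ≤ volume (Eu ∪ ⋃ i ∈ I, E i) := measure_mono hsub
    _ ≤ volume Eu + volume (⋃ i ∈ I, E i) := measure_union_le _ _
    _ ≤ volume Eu + ∑ i ∈ I, volume (E i) := by
        gcongr
        exact measure_biUnion_finset_le _ _
    _ ≤ ENNReal.ofReal (Cu * L ^ (-1 : ℝ) * T) + ∑ i ∈ I, ENNReal.ofReal (C * L ^ (-c) * T) := by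
        gcongr with i _
        exact hE1 i
    _ = ENNReal.ofReal (Cu * L ^ (-1 : ℝ) * T + ((6 * (K + 1) : ℕ) : ℝ) * (C * L ^ (-c) * T)) := by
        rw [Finset.sum_const, hI, nsmul_eq_mul, ENNReal.ofReal_add hn3 (mul_nonneg hn0 hn2),
          ENNReal.ofReal_mul hn0, ENNReal.ofReal_natCast]
    _ ≤ ENNReal.ofReal (C₀ * L ^ (-(min c 1)) * T) := by
        apply ENNReal.ofReal_le_ofReal
        have h1 : Cu * L ^ (-1 : ℝ) * T ≤ 2 * Cu * L ^ (-(min c 1)) * T := by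
          apply mul_le_mul_of_nonneg_right _ hT0
          calc Cu * L ^ (-1 : ℝ) ≤ Cu * L ^ (-(min c 1)) := mul_le_mul_of_nonneg_left hL1' (by linarith)
            _ ≤ 2 * Cu * L ^ (-(min c 1)) := mul_le_mul_of_nonneg_right (by linarith) hp2
        have h2 : ((6 * (K + 1) : ℕ) : ℝ) * (C * L ^ (-c) * T) ≤ ((6 * (K + 1) : ℕ) : ℝ) * (C * L ^ (-(min c 1)) * T) := by
          gcongr
        calc Cu * L ^ (-1 : ℝ) * T + ((6 * (K + 1) : ℕ) : ℝ) * (C * L ^ (-c) * T)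
            ≤ 2 * Cu * L ^ (-(min c 1)) * T + ((6 * (K + 1) : ℕ) : ℝ) * (C * L ^ (-(min c 1)) * T) := add_le_add h1 h2
          _ = C₀ * L ^ (-(min c 1)) * T := by rw [hC₀]; ring

end Pool.Agent.Helper90.OR
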